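import Pool.Agent.Helper92.RECT.Goals4
import Pool.Agent.Helper56.OHS.CUB

/-!
# CHS: soundness of the check
-/

namespace Pool.Agent.Helper15.RECT

open Pool.Agent.Helper92.RECT
open Pool.Agent.Helper65.LinSpace Pool.Agent.Helper78.Mpc Pool.Agent.Helper28.Ram Finset
open Pool.Agent.Helper65.OH (Prm OneHead Conf Par InBox co GoodQ Fns)
open Pool.Agent.Helper28.OHS (cellN cs cn cd Rep Box)

theorem lt_ne {x : ℕ} : lt01 0 x ≠ 0 ↔ x ≠ 0 := by
  unfold lt01
  split_ifs with h <;> omega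

theorem eq_ne {x y : ℕ} (h : eq01 x y ≠ 0) : x = y := by
  by_contra hne
  exact h (if_neg hne)

/-- If the head is never on the cell `p`, its content does not change. -/
theorem M_const {D : ℕ} (A : OneHead D) (w y : List Bool) (t : ℕ) (p : Fin D → ℤ) : ∀ τ : ℕ,
    (∀ u, t ≤ u → u ≤ t + τ → (A.conf w y u).h ≠ p) →
    (A.conf w y (t + τ)).M p = (A.conf w y t).M p := by
  intro τ
  induction τ with
  | zero => intro _; rfl
  | succ n ih =>
    intro h
    rw [← ih fun u h1 h2 => h u h1 (by omega)]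
    have e : A.conf w y (t + (n + 1)) = A.step w y (A.conf w y (t + n)) := rfl
    rw [e]
    show Function.update (A.conf w y (t + n)).M (A.conf w y (t + n)).h _ p = _
    rw [Function.update_of_ne (h (t + n) (by omega) (by omega)).symm]

theorem chs (pts : PTS_stmt) : CHS_stmt where
  chk := by
    intro D A w y s N tw k d a V Tc h T F hB hF c f t τ hR hτ hc
    have hc' : lt01 0 τ * (lt01 0 f * eq01 (∑ al ∈ range (2 ^ (s.G.κ * s.m.D)),
      (1 - lt01 0 ((s.cfa c f al).pth tw N k d F τ))) 0) ≠ 0 := hc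
    have h1 := left_ne_zero_of_mul hc'
    have h2 := left_ne_zero_of_mul (right_ne_zero_of_mul hc')
    have h3 := right_ne_zero_of_mul (right_ne_zero_of_mul hc')
    rw [lt_ne] at h1 h2
    have h4 : (∑ al ∈ range (2 ^ (s.G.κ * s.m.D)),
      (1 - lt01 0 ((s.cfa c f al).pth tw N k d F τ))) = 0 := eq_ne h3
    have h5 : ∀ al < 2 ^ (s.G.κ * s.m.D), (s.cfa c f al).pth tw N k d F τ ≠ 0 := by
      intro al hal
      have h6 := (sum_eq_zero_iff.1 h4) al (mem_range.2 hal)
      rw [← lt_ne]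
      omega
    obtain ⟨eA, eN, eW, c₀, hP⟩ := hB.par
    obtain ⟨gA, gN, gW, g₀, hG⟩ := hB.parG
    have hGD : s.G.D = D := hG.h_D
    have hGm : s.G.D = s.m.D := hGD.trans hP.h_D.symm
    have key := fun al hal => pts A w y s N tw k d a V Tc h T F hB hF c f al t τ hR hτ (h5 al hal)
    refine ⟨⟨h2, ?_, ?_⟩, Nat.pos_of_ne_zero h1⟩
    · obtain ⟨Pa, Pb, -, -, k3, -⟩ := key 0 (by positivity)
      exact k3 h2
    · intro p hp
      have hcd := ((Pool.Agent.Helper56.OHS.cub).cell s.G p hGD hp).2.2.1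
      rw [hGm] at hcd
      obtain ⟨Pa, Pb, k1, -, -, k4⟩ := key (cd s.G p) hcd
      obtain ⟨k5, k6⟩ := k4 h2 p hp rfl
      rw [hB.S, hGm]
      by_cases hr : Rgn s.m.κ Pa Pb p
      · exact k5 hr
      · have k7 := k6 hr
        have k8 := hR.ct p hp
        rw [hB.S, hGm] at k8
        rw [← k7, k8, M_const A w y t p τ]
        intro u hu1 hu2 hh
        exact hr (hh ▸ k1 u hu1 hu2)
  ac1 := by
    intro D A w y s N tw k d a V Tc h T F hB hF c t τ hR hτ hc
    have hc' : lt01 0 ((s.cfa c 0 0).pth tw N k d F τ) ≠ 0 := hc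
    rw [lt_ne] at hc'
    obtain ⟨Pa, Pb, -, k2, -, -⟩ := pts A w y s N tw k d a V Tc h T F hB hF c 0 0 t τ hR hτ hc'
    exact k2 rfl

end Pool.Agent.Helper15.RECT
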