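import Pool.Agent.Helper92.RECT.Goals1
import Pool.Agent.Helper40.OH.CROSS

/-! # RECT-CRO: shift of a grid, with weights -/

namespace Pool.Agent.Helper15.RECT

open Pool.Agent.Helper92.RECT Finset
open Pool.Agent.Helper40.OH (card_le_one')

theorem sum_cross (D d : ℕ) (p : ℕ → ℕ → ℕ) (A : Finset ℕ)
    (hA : ∀ t ∈ A, ∀ k < D, p (t + 1) k ≤ p t k + 1 ∧ p t k ≤ p (t + 1) k + 1) :
    ∑ o ∈ range d, (A.filter fun t => ∃ k < D, (p t k + o) / d ≠ (p (t + 1) k + o) / d).card ≤
      D * A.card := by
  have h1 : ∀ o ∈ range d, (A.filter fun t =>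
      ∃ k < D, (p t k + o) / d ≠ (p (t + 1) k + o) / d).card ≤
      ∑ t ∈ A, ∑ k ∈ range D,
        if (p t k + o) / d ≠ (p (t + 1) k + o) / d then 1 else 0 := by
    intro o _
    rw [card_filter]
    refine sum_le_sum fun t _ => ?_
    split_ifs with h
    · obtain ⟨k, hk, hne⟩ := h
      have := single_le_sum (f := fun k => if (p t k + o) / d ≠ (p (t + 1) k + o) / d
        then 1 else 0) (fun _ _ => Nat.zero_le _) (mem_range.2 hk)
      simpa [hne] using this
    · exact Nat.zero_le _
  refine (sum_le_sum h1).trans ?_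
  rw [sum_comm]
  have h3 : ∀ t ∈ A, ∑ o ∈ range d, ∑ k ∈ range D,
      (if (p t k + o) / d ≠ (p (t + 1) k + o) / d then 1 else 0) ≤ D := by
    intro t ht
    rw [sum_comm]
    have h4 : ∀ k ∈ range D, ∑ o ∈ range d,
        (if (p t k + o) / d ≠ (p (t + 1) k + o) / d then 1 else 0) ≤ 1 := by
      intro k hk
      obtain ⟨a, b⟩ := hA t ht k (mem_range.1 hk)
      have := card_le_one' (d := d) a b
      rwa [card_filter] at this
    refine (sum_le_sum h4).trans ?_
    simp
  refine (sum_le_sum h3).trans ?_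
  simp [mul_comm]

theorem cro : CRO_stmt := by
  intro D r d H N G _ _ p hd hp
  have hA1 := sum_cross D d p ((range r).filter fun t => N t ∧ G t) (fun t ht k hk =>
    hp t (mem_range.1 (mem_filter.1 ht).1) (mem_filter.1 ht).2.2 k hk)
  have hA2 := sum_cross D d p ((range r).filter fun t => G t) (fun t ht k hk =>
    hp t (mem_range.1 (mem_filter.1 ht).1) (mem_filter.1 ht).2 k hk)
  have hr : ((range r).filter fun t => G t).card ≤ r := by
    have := card_filter_le (range r) (fun t => G t)
    rwa [card_range] at this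
  simp only [filter_filter] at hA1 hA2
  by_contra hcon
  push Not at hcon
  have h5 := sum_lt_sum_of_nonempty (s := range d) ⟨0, mem_range.2 hd⟩
    fun o ho => hcon o (mem_range.1 ho)
  rw [sum_const, card_range, smul_eq_mul, ← mul_sum, sum_add_distrib, ← mul_sum] at h5
  refine absurd (Nat.mul_le_mul_left d ?_) (not_le.2 h5)
  calc _ ≤ H * (D * ((range r).filter fun t => N t ∧ G t).card) +
        D * ((range r).filter fun t => G t).card :=
        Nat.add_le_add (Nat.mul_le_mul_left H hA1) hA2
    _ ≤ H * (D * ((range r).filter fun t => N t ∧ G t).card) + D * r :=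
        Nat.add_le_add_left (Nat.mul_le_mul_left D hr) _
    _ = _ := by ring

end Pool.Agent.Helper15.RECT
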